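import Pool.Agent.Lib.MP_688fd0_co.SQ4.H67.InF
import Pool.Agent.Lib.MP_688fd0_co.SQ4.H98.FamI
import Pool.Agent.Lib.MP_688fd0_co.SQ4.H98.Lza
import Pool.Agent.Lib.MP_688fd0_co.SQ4.H2.Pos
import Pool.Agent.Lib.MP_688fd0_co.SQ4.H41.Pth
import Pool.Agent.Lib.MP_688fd0_co.SQ2.V.SubL
import Pool.Agent.Lib.MP_688fd0_co.SQ3.H98.KG

/-!
Type C1, BIGI: the puzzle of a path if there is no effective reflection.
-/

set_option autoImplicit false
set_option linter.unusedSectionVars false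

namespace Pool.Agent.Lib.MP_688fd0_co.SQ4.CV

open Pool.Agent.Lib.MP_688fd0_co.OSF Pool.Agent.Lib.MP_688fd0_co.SQ2 Pool.Agent.Lib.MP_688fd0_co.SQ3
open Pool.Agent.Lib.MP_688fd0_co.SQ4
open SQ2.V (Puz Sub)
open SQ2.V.Puz (St)

namespace BigI

/-! ### The caps of one component -/

section ret

/-- A walk of states gives a walk of caps. -/
theorem rstep_of_walk {S R Tok : Type} [DecidableEq S] {P : Puz S R} (l : List (R × S)) :
    ∀ s : St S R Tok, P.Ok s l → Relation.ReflTransGen P.RStep s.1 (P.go s l).1 := by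
  induction l with
  | nil => intro s _; exact Relation.ReflTransGen.refl
  | cons p l ih =>
    intro s hl
    exact Relation.ReflTransGen.head ⟨p.1, p.2, hl.1, rfl⟩ (ih (P.step p.1 p.2 s) hl.2)

/-- Strong connectivity from RET. -/
theorem strong_of_ret {S R : Type} [DecidableEq S] {P : Puz S R} {K : R → Prop} (h : P.RetK K) {r q : R} {v : S}
    (hr : K r) (ha : P.Adj r q v) : Relation.ReflTransGen P.RStep (P.tau q) r := by
  have h1 : P.WReach ((r, PEmpty.elim) : St S R PEmpty) (P.step q v (r, PEmpty.elim)) :=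
    ⟨[(q, v)], ⟨ha, trivial⟩, rfl⟩
  obtain ⟨l, h2, h3⟩ := h.ret PEmpty _ _ hr h1
  have h4 := rstep_of_walk l _ h2
  rw [h3] at h4
  exact h4

theorem rstep_sub {S R Sb Rb : Type} [DecidableEq S] [DecidableEq Sb] {P : Puz S R} {Pb : Puz Sb Rb} (E : Sub P Pb)
    {r r' : Rb} (h : Relation.ReflTransGen Pb.RStep r r') : Relation.ReflTransGen P.RStep (E.iR r) (E.iR r') := by
  induction h with
  | refl => exact Relation.ReflTransGen.refl
  | tail _ hs ih =>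
    obtain ⟨q, v, h1, rfl⟩ := hs
    exact ih.tail ⟨E.iR q, E.iS v, (E.adj_iff _ _ _).2 h1, (E.tau q).symm⟩

variable {Q : Type} [Group Q] [DecidableEq Q] {B : Lb.{0, 0} Q} {a b : B.L} {eps : Q →* ℤˣ} {D : Subgroup Q} {z : Q}
  {k : ℕ} {H : HypC B a b eps D z k} {F : Finset Q}

/-- RET for the big puzzle, from the component. -/
theorem retK_of_good (T : Pth H F) (c' : T.C) (hC : ∀ c'', c'' = c') {v₀ : {v // v ∈ F}} {A : {v // v ∈ F} → Prop}
    (hA : T.IsComp (fun c'' => c'' = c') v₀ A) {K : T.Rc c' → Prop} {R : Type} [Field R] (h : T.GoodC c' A K R) :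
    T.P.RetK fun r => ∃ r' : T.Rc c', r = ⟨c', r'⟩ ∧ A ((T.X c').x r') ∧ K r' := by
  obtain ⟨-, Pb, E, -, hS, hR, hK, -⟩ := h
  -- the component is closed
  have hcl : ∀ r : T.Rc c', ∀ v w : {v // v ∈ F}, T.P.On ⟨c', r⟩ v → T.P.On ⟨c', r⟩ w → A v → A w := by
    intro r v w hv hw h1
    have hvw : v = w ∨ ((T.X c').x r = v ∧ (T.X c').y r = w) ∨ ((T.X c').x r = w ∧ (T.X c').y r = v) := by
      rcases hv with hv | hv <;> rcases hw with hw | hw
      · exact Or.inl (hv.trans hw.symm)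
      · exact Or.inr (Or.inl ⟨hv.symm, hw.symm⟩)
      · exact Or.inr (Or.inr ⟨hw.symm, hv.symm⟩)
      · exact Or.inl (hv.trans hw.symm)
    rcases hvw with rfl | h2
    · exact h1
    · exact (hA w).2 (((hA v).1 h1).tail ⟨c', rfl, r, h2⟩)
  have key : ∀ (r q : Σ c, T.Rc c) (v : {v // v ∈ F}),
      (∃ r' : T.Rc c', r = ⟨c', r'⟩ ∧ A ((T.X c').x r') ∧ K r') → T.P.Adj r q v →
      ∃ (r' q' : {r : T.Rc c' // A ((T.X c').x r)}) (v' : {v // A v}), r = E.iR r' ∧ q = E.iR q' ∧ v = E.iS v' ∧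
        K r'.1 ∧ Pb.Adj r' q' v' := by
    rintro r ⟨c'', q⟩ v ⟨r', rfl, h2, h3⟩ hadj
    obtain rfl := hC c''
    have hAv : A v := hcl r' _ v (Or.inl rfl) hadj.1 h2
    have hAq : A ((T.X c'').x q) := hcl q v _ hadj.2.1 (Or.inl rfl) hAv
    refine ⟨⟨r', h2⟩, ⟨q, hAq⟩, ⟨v, hAv⟩, (hR ⟨r', h2⟩).symm, (hR ⟨q, hAq⟩).symm, (hS ⟨v, hAv⟩).symm, h3, ?_⟩
    rw [← E.adj_iff, hR, hR, hS]
    exact hadj
  refine SQ2.V.Puz.RetK.of_strong ?_ ?_
  · intro r q v hr hadj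
    obtain ⟨r', q', v', -, rfl, -, h3, h4⟩ := key r q v hr hadj
    refine ⟨(Pb.tau q').1, ?_, (Pb.tau q').2, hK.cl _ _ _ h3 h4⟩
    rw [E.tau, hR]
  · intro r q v hr hadj
    obtain ⟨r', q', v', rfl, rfl, -, h3, h4⟩ := key r q v hr hadj
    rw [E.tau]
    exact rstep_sub E (strong_of_ret hK.toRetK h3 h4)

end ret

/-! ### One sheet -/

section sheet

variable {Q : Type} [Group Q] {B : Lb.{0, 0} Q} {a b : B.L} {eps : Q →* ℤˣ} {D : Subgroup Q} {z : Q}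
  {k : ℕ} (H : HypC B a b eps D z k)

include H

/-- A letter leads into the sheet of a neighbour on the line. -/
theorem letter (hE : ∀ s, ¬ EffL B a b eps D z k s) (y : Q) (s : B.L) :
    ∃ j : ℤ, |j| ≤ 1 ∧ Sh D ((H.up.U ^ j) y) (y * B.q s) := by
  have hinv : ∀ y : Q, eps y = 1 → (H.up.U ^ (-1 : ℤ)) y = y * B.q b := fun y hy => by
    rw [zpow_neg_one]; exact if_pos hy
  have hinv' : ∀ y : Q, eps y ≠ 1 → (H.up.U ^ (-1 : ℤ)) y = y * (B.q a)⁻¹ := fun y hy => by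
    rw [zpow_neg_one]; exact if_neg hy
  have hrefl : ∀ s : B.L, eps (B.q s) = -1 → B.q s * (B.q a)⁻¹ ∈ D ∨ B.q s * (B.q b)⁻¹ ∈ D := by
    intro s hs
    by_contra hc
    push Not at hc
    exact hE s ⟨hs, fun h => hc.1 (Ct.EI_le H h), fun h => hc.2 (Ct.EI_le H h)⟩
  rcases Int.units_eq_one_or (eps (B.q s)) with hs | hs
  · exact ⟨0, by norm_num, by rw [zpow_zero]; exact Sh.mul_mem _ (H.near s hs)⟩
  · by_cases hy : eps y = 1
    · rcases hrefl s hs with h1 | h1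
      · refine ⟨1, by norm_num, ?_⟩
        rw [zpow_one, H31.C_U_one H hy]
        refine Sh.mul_left ?_ y
        have h2 := Ct.memA H h1
        exact h2
      · refine ⟨-1, by norm_num, ?_⟩
        rw [hinv y hy]
        exact Sh.mul_left (Ct.memB H h1) y
    · have hsi : eps (B.q (B.inv s)) = -1 := by rw [B.q_inv, map_inv, hs]; decide
      rcases hrefl (B.inv s) hsi with h1 | h1
      · rw [B.q_inv] at h1
        refine ⟨-1, by norm_num, ?_⟩
        rw [hinv' y hy]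
        refine Sh.mul_left ?_ y
        show (B.q a)⁻¹⁻¹ * B.q s ∈ D
        have h2 := D.inv_mem h1
        rwa [mul_inv_rev, inv_inv (B.q s)] at h2
      · rw [B.q_inv] at h1
        refine ⟨1, by norm_num, ?_⟩
        rw [zpow_one, H31.C_U_neg H hy]
        refine Sh.mul_left ?_ y
        show (B.q b)⁻¹⁻¹ * B.q s ∈ D
        have h2 := D.inv_mem h1
        rwa [mul_inv_rev, inv_inv (B.q s)] at h2

/-- A word leads into a sheet of the line. -/
theorem word (hE : ∀ s, ¬ EffL B a b eps D z k s) (l : List B.L) :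
    ∀ y : Q, ∃ j : ℤ, |j| ≤ l.length ∧ Sh D ((H.up.U ^ j) y) (B.fin y l) := by
  induction l with
  | nil => intro y; exact ⟨0, by norm_num, by rw [zpow_zero]; exact Sh.refl y⟩
  | cons s l ih =>
    intro y
    obtain ⟨j, h1, h2⟩ := letter H hE y s
    obtain ⟨j', h3, h4⟩ := ih (y * B.q s)
    refine ⟨j' + j, ?_, ?_⟩
    · rw [List.length_cons, Nat.cast_succ]
      exact (abs_add_le _ _).trans (by omega)
    · have h5 := sh_zpow H h2 j'
      have h6 := h5.trans h4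
      rw [zpow_add]
      exact h6

/-- No effective reflection: the frontier is one sheet. -/
theorem one_sheet (hE : ∀ s, ¬ EffL B a b eps D z k s) {c W : ℕ} {x : Q} {F : Finset Q} (hF : FrC H.up D k c W x F)
    (fs0 : ∀ s ∈ F, ∃ l : List B.L, l.length ≤ 4 ∧ (B.fin x l)⁻¹ * s ∈ D) (hW : 4 ≤ W) : ∀ v ∈ F, x⁻¹ * v ∈ D := by
  intro v hv
  obtain ⟨l, hl, h1⟩ := fs0 v hv
  obtain ⟨j, hj, h2⟩ := word H hE l x
  have h3 : Sh D ((H.up.U ^ j) x) v := h2.trans h1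
  obtain ⟨δ, hδ, h4⟩ := h3.symm.exists_mul
  have h5 : (H.up.U ^ j) x ∈ F := by rw [h4]; exact hF.inv v hv δ hδ
  have h6 := hF.disj x hF.fx j (by
    have : (l.length : ℤ) ≤ 4 := by exact_mod_cast hl
    have h7 : (4 : ℤ) ≤ W := by exact_mod_cast hW
    omega) h5
  rw [h6, zpow_zero] at h3
  exact h3

end sheet

end BigI

/-- The K part of BIGI (helper80). -/
def KPS : Prop :=
  ∀ (Q : Type) [Group Q] [DecidableEq Q] (B : Lb.{0, 0} Q) (a b : B.L) (eps : Q →* ℤˣ) (D : Subgroup Q) (z : Q) (k : ℕ)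
    (H : HypC B a b eps D z k), (∀ s, ¬ EffL B a b eps D z k s) → ∀ (F : Finset Q) (T : Pth H F) (c : T.C) (x : Q),
    eps x = 1 → (∀ v ∈ F, x⁻¹ * v ∈ D) → (∀ v ∈ F, ∀ δ ∈ D, v * δ ∈ F) →
    ∀ (Pos : Type) [Fintype Pos] (mp : Pos → Q), (∀ c, mp c ∈ mZ B a b D z k) →
      (∃ q₀, 0 < q₀ ∧ ∀ m ∈ mZ B a b D z k, {c | mp c = m}.ncard = q₀) →
      ∀ (lb : T.Rc c → {t : B.L // eps (B.q t) = 1}) (po : T.Rc c → Pos) (lv : T.Rc c → ZMod (2 * k)),
      (∀ t p n v, ∃! r, lb r = t ∧ po r = p ∧ lv r = n ∧ (T.X c).x r = v) →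
      (∀ r, ((T.X c).y r : Q) = (T.X c).x r * ((mp (po r) * uC (B.q a) (B.q b) (lv r).val) * B.q (lb r) *
        (mp (po r) * uC (B.q a) (B.q b) (lv r).val)⁻¹)) →
      (∀ r, lb ((T.X c).tau r) = lb r) →
      (∀ (t : {t : B.L // eps (B.q t) = 1}) (A : {v // v ∈ F} → Prop),
        (∀ r, lb r = t → (A ((T.X c).x r) ↔ A ((T.X c).y r))) → ∀ r, lb r = t → A ((T.X c).x r) →
          A ((T.X c).x ((T.X c).tau r))) →
      ∀ h : ℕ, FamB H _ _ (T.X c) (T.Y c) (T.wd c) (T.In c) h → (∀ v, T.Y c v) →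
      (∃ q₁ ∈ SI B a b eps D z k, ∃ q₂ ∈ SI B a b eps D z k, q₁ ≠ q₂) →
      ∀ (v₀ : {v // v ∈ F}) (A : {v // v ∈ F} → Prop), T.IsComp (fun c' => c' = c) v₀ A →
        ∀ r, A ((T.X c).x r) → ∃ K : T.Rc c → Prop, K r ∧
          ∀ (p : ℕ) (_ : Fact p.Prime), 4 * k < p → T.GoodC c A K (ZMod p)

open Ct BigI in
/-- BIGI from the K part. -/
theorem bigI_of (hK : KPS) : BigIS := by
  classical
  intro Q _ _ B a b eps D z k H c W hS hSep hLev hW hE x s₁ s₂ F hx hF fs0 hs₁ hs₂ n₁ n₂ n₁₂ e₁ e₂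
  have hk := H.kpos
  have : NeZero (2 * k) := ⟨by omega⟩
  have hfL : Finite B.L := H.finL
  have hg := dcl hF
  have hcF : Fintype.card {v // v ∈ F} = F.card := Fintype.card_coe F
  have hW4 : 4 ≤ W := by
    refine le_trans ?_ hW
    unfold lamC
    have h1 : 2 ^ 2 ≤ 2 ^ (((Nat.card B.L + 2) ^ 4 * k + k + 20) ^ 4) :=
      Nat.pow_le_pow_right (by norm_num) (by
        calc 2 ≤ 20 ^ 4 := by norm_num
          _ ≤ _ := Nat.pow_le_pow_left (by omega) 4)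
    calc 4 = 2 ^ 2 * 1 := by norm_num
      _ ≤ _ := Nat.mul_le_mul h1 (by omega)
  have hone := one_sheet H hE hF fs0 hW4
  refine ⟨hone, ?_⟩
  have hY : ∀ v : {v // v ∈ F}, Sh D x (v : Q) := fun v => hone v v.2
  have hev : ∀ v : {v // v ∈ F}, eps (v : Q) = 1 := fun v => by rw [← eps_sh H (hY v)]; exact hx
  obtain ⟨Pos, iP, ps, hps⟩ := pos Q B a b eps D z k H
  obtain ⟨X, ⟨h1, h2, h3, h4, h5, h6⟩, h7⟩ := inb2 {v // v ∈ F} Q B a b eps D z k H (fun v => (v : Q))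
    Subtype.val_injective hg (fun v => Sh D x (v : Q)) (fun s s' h h' => h.trans h') Pos ps hps.ok _ hps.len
  have : Fintype {t : B.L // eps (B.q t) = 1} := Fintype.ofFinite _
  have hh : 2 * k * (Fintype.card {v // v ∈ F}) ^ 2 + 2 * k * k * (2 * (k * (k + 1)) + 1) ≤ hB F.card k (c + 2) := by
    rw [hcF]
    have := InF.hB_ge F.card k
    unfold hB at this ⊢
    omega
  have fam : FamB H _ _ X (fun v => Sh D x (v : Q)) (wdI H (fun v : {v // v ∈ F} => (v : Q)) ps) (fun _ => True)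
      (hB F.card k (c + 2)) := InF.famB lza H hps hh h1 h2 h3 h4 h6
  -- the values
  have hval : ∀ r : RI B eps k Pos (fun v : {v // v ∈ F} => Sh D x (v : Q)), (X.y r : Q) = X.x r *
      ((mL (B.q a) (B.q b) (ps r.1.2) * uC (B.q a) (B.q b) r.2.1.val) * B.q r.1.1 *
        (mL (B.q a) (B.q b) (ps r.1.2) * uC (B.q a) (B.q b) r.2.1.val)⁻¹) := by
    intro r
    have e3 := h4 r r.2.1.val (by
      have : eeC eps ((r.2.2 : {v : {v // v ∈ F} // Sh D x (v : Q)}) : {v // v ∈ F}).1 = 0 := if_pos (hev _)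
      rw [this, add_zero])
    rwa [rf_one (hev _), rf_one (hev _)] at e3
  -- the rungs over the leaves
  have hr : ∀ s (hs : s ∈ F), Ed B a b eps D z k (c + 2) x s →
      ∃ r, ((X.x r : Q) = x ∧ (X.y r : Q) = s) := by
    intro s hs hl
    rcases hl with ⟨q, hq, rfl⟩ | ⟨t, n, i, ht, -⟩
    · obtain ⟨r, r1, r2, r3⟩ := fam.inn ⟨x, hF.fx⟩ (Sh.refl x) q hq
      refine ⟨r, by rw [r2], ?_⟩
      rw [rf_one (hev _)] at r3
      have r4 : rfC eps (B.q a) x = x := rf_one hx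
      rw [r4] at r3
      exact r3
    · exact absurd ht (hE t)
  obtain ⟨f, hf1, hf2⟩ := hr s₁ hs₁ e₁
  obtain ⟨g, hg1, hg2⟩ := hr s₂ hs₂ e₂
  -- two different values
  have hSI : ∃ q₁ ∈ SI B a b eps D z k, ∃ q₂ ∈ SI B a b eps D z k, q₁ ≠ q₂ := by
    rcases e₁ with ⟨q₁, h8, h9⟩ | ⟨t, n, i, ht, -⟩
    · rcases e₂ with ⟨q₂, h10, h11⟩ | ⟨t, n, i, ht, -⟩
      · exact ⟨q₁, h8, q₂, h10, fun h => n₁₂ (by rw [h9, h11, h])⟩
      · exact absurd ht (hE t)
    · exact absurd ht (hE t)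
  -- the puzzle without the class of caps
  let T₀ : Pth H F :=
    { C := Unit
      Rc := fun _ => RI B eps k Pos (fun v : {v // v ∈ F} => Sh D x (v : Q))
      fC := inferInstance
      fR := fun _ => inferInstance
      X := fun _ => X
      Y := fun _ u => Sh D x (u : Q)
      wd := fun _ => wdI H (fun v : {v // v ∈ F} => (v : Q)) ps
      In := fun _ _ => True
      f := ⟨(), f⟩
      g := ⟨(), g⟩
      l₀ := ⟨x, hF.fx⟩
      Kb := fun _ => True }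
  have hK₀ : ∀ (Kb : (Σ c, T₀.Rc c) → Prop) (v₀ : {v // v ∈ F}) (A : {v // v ∈ F} → Prop),
      ({ T₀ with Kb := Kb } : Pth H F).IsComp (fun c' => c' = ()) v₀ A →
        ∀ r, A (X.x r) → ∃ K : RI B eps k Pos (fun v : {v // v ∈ F} => Sh D x (v : Q)) → Prop, K r ∧
          ∀ (p : ℕ) (_ : Fact p.Prime), 4 * k < p → ({ T₀ with Kb := Kb } : Pth H F).GoodC () A K (ZMod p) := by
    intro Kb
    refine hK Q B a b eps D z k H hE F ({ T₀ with Kb := Kb } : Pth H F) () x hx hone hF.inv Pos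
      (fun c => mL (B.q a) (B.q b) (ps c)) (fun c => mL_mZ H (hps.ok c)) hps.cnt (fun r => r.1.1) (fun r => r.1.2)
      (fun r => r.2.1) ?_ hval (fun r => ?_) ?_ _ fam hY hSI
    · intro t p n v
      refine ⟨⟨(t, p), (n, ⟨v, hY v⟩)⟩, ⟨rfl, rfl, rfl, h2 _⟩, ?_⟩
      rintro ⟨⟨t', p'⟩, n', v', hv'⟩ ⟨i1, i2, i3, i4⟩
      have i4' : X.x ⟨(t', p'), (n', ⟨v', hv'⟩)⟩ = v := i4
      rw [h2] at i4'
      simp only at i1 i2 i3 i4'
      subst i1 i2 i3 i4'
      rfl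
    · show (X.tau r).1.1 = r.1.1
      rw [h5]
    · intro t A hA r hr hAr
      subst hr
      obtain ⟨⟨t', p'⟩, r'⟩ := r
      exact h7 (t', p') A (fun r => hA ⟨(t', p'), r⟩ rfl) r' hAr
  -- the class of `g`
  obtain ⟨K, hKg, hKG⟩ := hK₀ (fun _ => True) ⟨x, hF.fx⟩
    (fun v => Relation.ReflTransGen (T₀.Jn fun c' => c' = ()) ⟨x, hF.fx⟩ v) (fun v => Iff.rfl) g (by
      have e3 : X.x g = ⟨x, hF.fx⟩ := Subtype.ext hg1
      rw [e3])
  obtain ⟨p, hp1, hp2⟩ := Nat.exists_infinite_primes (4 * k + 1)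
  have hpf : Fact p.Prime := ⟨hp2⟩
  have hret := retK_of_good T₀ () (fun _ => rfl) (v₀ := ⟨x, hF.fx⟩)
    (A := fun v => Relation.ReflTransGen (T₀.Jn fun c' => c' = ()) ⟨x, hF.fx⟩ v) (fun v => Iff.rfl)
    (K := K) (R := ZMod p) (hKG p hpf (by omega))
  let T : Pth H F :=
    { T₀ with Kb := fun r => ∃ r', r = ⟨(), r'⟩ ∧
        Relation.ReflTransGen (T₀.Jn fun c' => c' = ()) ⟨x, hF.fx⟩ (X.x r') ∧ K r' }
  have key : ∀ (r : RI B eps k Pos (fun v : {v // v ∈ F} => Sh D x (v : Q))) (s : Q),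
      ((X.x r : Q) = x ∧ (X.y r : Q) = s) →
      T.P.On ⟨(), r⟩ ⟨x, hF.fx⟩ ∧ (T.P.oth ⟨(), r⟩ ⟨x, hF.fx⟩ : Q) = s := by
    intro r s h
    have hx' : T.P.x ⟨(), r⟩ = X.x r := rfl
    have hy' : T.P.y ⟨(), r⟩ = X.y r := rfl
    unfold Puz.On Puz.oth
    rw [hx', hy']
    have h5 : (⟨x, hF.fx⟩ : {v // v ∈ F}) = X.x r := Subtype.ext h.1.symm
    rw [if_pos h5]
    exact ⟨Or.inl h5, h.2⟩
  obtain ⟨kf1, kf2⟩ := key f s₁ ⟨hf1, hf2⟩
  obtain ⟨kg1, kg2⟩ := key g s₂ ⟨hg1, hg2⟩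
  refine ⟨T, (), ?_, fun _ => rfl, hY, fun _ => trivial, hK₀ T.Kb⟩
  exact
    { fam := fun _ => fam
      card := by
        show Fintype.card (Σ _ : Unit, RI B eps k Pos (fun v : {v // v ∈ F} => Sh D x (v : Q))) ≤ _
        rw [Fintype.card_sigma]
        have c0 := InF.card_RI H hps (g := fun v : {v // v ∈ F} => (v : Q)) Subtype.val_injective x
        calc ∑ _j : Unit, Fintype.card (RI B eps k Pos (fun v : {v // v ∈ F} => Sh D x (v : Q))) =
            Fintype.card (RI B eps k Pos (fun v : {v // v ∈ F} => Sh D x (v : Q))) := by simp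
          _ ≤ 1 * rB (Nat.card B.L) k := by rw [one_mul]; exact c0
          _ ≤ 2 * (F.card + 1) ^ 2 * (Nat.card B.L + 1) * rB (Nat.card B.L) k := by
              refine Nat.mul_le_mul_right _ ?_
              have : 0 < 2 * (F.card + 1) ^ 2 * (Nat.card B.L + 1) := by positivity
              omega
      adj := ⟨kg1, kf1, fun h => n₁₂ (by rw [← kf2, ← kg2]; exact congrArg Subtype.val h.symm)⟩
      hx := rfl
      h₁ := kf2
      h₂ := kg2
      ret := hret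
      kg := ⟨g, rfl, by
        have e3 : X.x g = ⟨x, hF.fx⟩ := Subtype.ext hg1
        rw [e3], hKg⟩ }

end Pool.Agent.Lib.MP_688fd0_co.SQ4.CV
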