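import Pool.Agent.Lib.MP_688fd0_co.SQ4.IfaceV2

/-!
Type C1, BIGI: the family of the inner rungs of one sheet with labels and positions, and the statement about the closed
classes of caps.
-/

set_option autoImplicit false

namespace Pool.Agent.Lib.MP_688fd0_co.SQ4.CV

open Pool.Agent.Lib.MP_688fd0_co.OSF Pool.Agent.Lib.MP_688fd0_co.SQ2 Pool.Agent.Lib.MP_688fd0_co.SQ3
open Pool.Agent.Lib.MP_688fd0_co.SQ4
open SQ2.V (Puz)
open SQ2.V.Puz (St)

/-- The value of the rotation `t` at the position `(m, n)`. -/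
def valZ {Q : Type} [Group Q] (B : Lb.{0, 0} Q) (a b t : B.L) (m : Q) (n : ℕ) : Q :=
  (m * uC (B.q a) (B.q b) n) * B.q t * (m * uC (B.q a) (B.q b) n)⁻¹

/-- The rungs are the tuples (rotation, index, shift in `mZ`, level, strand). -/
structure FamZ {S : Type} [Fintype S] [DecidableEq S] {Q : Type} [Group Q] [DecidableEq Q] {B : Lb.{0, 0} Q} {a b : B.L}
    {eps : Q →* ℤˣ} {D : Subgroup Q} {z : Q} {k : ℕ} (H : HypC B a b eps D z k) (g : S → Q)
    (inj : Function.Injective g) {R : Type} (X : ClsW H.up g inj (2 * k) R) (Y : S → Prop) {J : Type}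
    (lb : R → B.L) (po : R → J × mZ B a b D z k × ZMod (2 * k)) : Prop where
  rot : ∀ r, eps (B.q (lb r)) = 1
  bij : ∀ t, eps (B.q t) = 1 → ∀ p v, Y v → ∃! r, lb r = t ∧ po r = p ∧ X.x r = v
  val : ∀ r, rfC eps (B.q a) (g (X.y r)) = rfC eps (B.q a) (g (X.x r)) *
    valZ B a b (lb r) ((po r).2.1 : Q) ((po r).2.2.val + eeC eps (g (X.x r)))
  tau : ∀ r, lb (X.tau r) = lb r

/-- FAMI with labels and positions (`J` = any finite set of copies, every element of `mZ` equally often). -/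
def FamZS : Prop :=
  ∀ (S : Type) [Fintype S] [DecidableEq S] (Q : Type) [Group Q] [DecidableEq Q] (B : Lb.{0, 0} Q) (a b : B.L)
    (eps : Q →* ℤˣ) (D : Subgroup Q) (z : Q) (k : ℕ) (H : HypC B a b eps D z k) (g : S → Q)
    (inj : Function.Injective g) (W : ℕ), DCl D g → Dis H g W → 8 * k + 8 ≤ W → ∀ v₀ : S,
      ∃ (R : Type) (_ : Fintype R) (X : ClsW H.up g inj (2 * k) R) (wd : R → List B.L) (J : Type) (_ : Fintype J)
        (_ : Nonempty J) (lb : R → B.L) (po : R → J × mZ B a b D z k × ZMod (2 * k)),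
        Fintype.card R ≤ rB (Nat.card B.L) k ∧
        FamB H g inj X (fun v => Sh D (g v₀) (g v)) wd (fun _ => True) (hB (Fintype.card S) k 0) ∧
        FamZ H g inj X (fun v => Sh D (g v₀) (g v)) lb po

/-- The K part of BIGI: every rung belongs to a closed class of caps which satisfies the hypotheses of the lemmas A, B. -/
def KPartS : Prop :=
  ∀ (Q : Type) [Group Q] [DecidableEq Q] (B : Lb.{0, 0} Q) (a b : B.L) (eps : Q →* ℤˣ) (D : Subgroup Q) (z : Q) (k : ℕ)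
    (H : HypC B a b eps D z k) (F : Finset Q) (T : Pth H F) (c' : T.C) (x : Q) (h : ℕ) (J : Type) (_ : Fintype J)
    (_ : Nonempty J) (lb : T.Rc c' → B.L) (po : T.Rc c' → J × mZ B a b D z k × ZMod (2 * k)),
    (∀ s, ¬ EffL B a b eps D z k s) → eps x = 1 → x ∈ F → (∀ v ∈ F, x⁻¹ * v ∈ D) → (∀ s ∈ F, ∀ δ ∈ D, s * δ ∈ F) →
    (∀ c'', c'' = c') → (∀ v, T.Y c' v) → (∀ r, T.In c' r) →
    FamB H _ _ (T.X c') (T.Y c') (T.wd c') (T.In c') h → FamZ H _ _ (T.X c') (T.Y c') lb po →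
    (∃ q ∈ SI B a b eps D z k, ∃ q' ∈ SI B a b eps D z k, q ≠ q') →
    ∀ (v₀ : {v // v ∈ F}) (A : {v // v ∈ F} → Prop), T.IsComp (fun c'' => c'' = c') v₀ A →
      ∀ r : T.Rc c', A ((T.X c').x r) → ∃ K : T.Rc c' → Prop, K r ∧
        T.P.RetK (fun r => ∃ r' : T.Rc c', r = ⟨c', r'⟩ ∧ A ((T.X c').x r') ∧ K r') ∧
        ∀ (p : ℕ) (_ : Fact p.Prime), 4 * k < p → T.GoodC c' A K (ZMod p)

end Pool.Agent.Lib.MP_688fd0_co.SQ4.CV
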