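import Pool.Agent.Lib.MP_688fd0_co.SQ4.H98.IfaceF
import Pool.Agent.Lib.MP_688fd0_co.SQ4.H67.FamZ

/-!
Type C1: the inner block (`InbS`) as a family: `FamB` and `FamZ`.
-/

set_option autoImplicit false
set_option linter.unusedSectionVars false

namespace Pool.Agent.Lib.MP_688fd0_co.SQ4.CV

open Pool.Agent.Lib.MP_688fd0_co.OSF Pool.Agent.Lib.MP_688fd0_co.SQ2 Pool.Agent.Lib.MP_688fd0_co.SQ3
open Pool.Agent.Lib.MP_688fd0_co.SQ4
open SQ2.V (Puz)

namespace InF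

section

variable {S : Type} [Fintype S] [DecidableEq S] {Q : Type} [Group Q] [DecidableEq Q] {B : Lb.{0, 0} Q} {a b : B.L}
  {eps : Q →* ℤˣ} {D : Subgroup Q} {z : Q} {k : ℕ}

theorem rev_nil (B : Lb.{0, 0} Q) : B.rev ([] : List B.L) = [] := rfl

/-- A position of a given shift. -/
theorem exists_pos {H : HypC B a b eps D z k} {Pos : Type} [Fintype Pos] {ps : Pos → List (ℕ × B.L)}
    (hP : PosOk H ps) {m : Q} (hm : m ∈ mZ B a b D z k) : ∃ c, mL (B.q a) (B.q b) (ps c) = m := by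
  obtain ⟨q₀, h0, h1⟩ := hP.cnt
  have h2 : {c | mL (B.q a) (B.q b) (ps c) = m}.Nonempty := by
    rw [← Set.ncard_pos (Set.toFinite _), h1 m hm]
    exact h0
  exact h2

omit [Fintype S] [DecidableEq S] [DecidableEq Q] in
theorem hB_ge (σ k : ℕ) : 2 * k * σ ^ 2 + 2 * k * k * (2 * (k * (k + 1)) + 1) ≤ hB σ k 0 := by
  unfold hB
  have e1 : 2 * k * σ ^ 2 ≤ 4 * k * (σ + 1) ^ 2 := by nlinarith [Nat.zero_le (k * σ), Nat.zero_le (k * σ ^ 2)]
  have e2 : 2 * k * k * (2 * (k * (k + 1)) + 1) ≤ 20 * (k + 1) ^ 5 := by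
    calc 2 * k * k * (2 * (k * (k + 1)) + 1) ≤ 2 * (k + 1) * (k + 1) * (2 * ((k + 1) * (k + 1)) + 1) := by
          gcongr <;> omega
      _ ≤ 20 * (k + 1) ^ 5 := by
          have e3 : 1 ≤ k + 1 := by omega
          generalize k + 1 = x at *
          nlinarith [Nat.pow_le_pow_right e3 (show 2 ≤ 5 by norm_num), Nat.pow_le_pow_right e3 (show 4 ≤ 5 by norm_num)]
  omega

omit [DecidableEq S] [DecidableEq Q] in
/-- The number of rungs of the inner block on one sheet. -/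
theorem card_RI (H : HypC B a b eps D z k) {Pos : Type} [Fintype Pos] {ps : Pos → List (ℕ × B.L)}
    (hps : PosOk H ps) {g : S → Q} (inj : Function.Injective g) (x : Q)
    [Fintype (RI B eps k Pos fun v => Sh D x (g v))] :
    Fintype.card (RI B eps k Pos fun v => Sh D x (g v)) ≤ rB (Nat.card B.L) k := by
  classical
  have hk := H.kpos
  have : NeZero (2 * k) := ⟨by omega⟩
  have hfL : Finite B.L := H.finL
  have hfin : Finite Q := H.fin
  have hD' : Finite D := inferInstance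
  have : Fintype {t : B.L // eps (B.q t) = 1} := Fintype.ofFinite _
  have hcY : Fintype.card {v // Sh D x (g v)} ≤ k := by
    refine le_trans ?_ (Nat.le_of_dvd hk H.card)
    rw [← Nat.card_eq_fintype_card]
    refine Nat.card_le_card_of_injective (fun v : {v // Sh D x (g v)} => (⟨_, v.2⟩ : D)) ?_
    intro v v' h
    have e1 : x⁻¹ * g v = x⁻¹ * g v' := congrArg Subtype.val h
    exact Subtype.ext (inj (mul_left_cancel e1))
  have c1 : Fintype.card (RI B eps k Pos fun v => Sh D x (g v)) =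
      Fintype.card {t : B.L // eps (B.q t) = 1} * Fintype.card Pos *
        (2 * k * Fintype.card {v // Sh D x (g v)}) := by
    rw [← Nat.card_eq_fintype_card, Nat.card_sigma]
    simp only [Nat.card_eq_fintype_card, ZMod.card, Finset.sum_const, Finset.card_univ, smul_eq_mul,
      Fintype.card_prod]
  have c2 : Fintype.card {t : B.L // eps (B.q t) = 1} ≤ Nat.card B.L := by
    rw [← Nat.card_eq_fintype_card]
    exact Nat.card_le_card_of_injective _ Subtype.val_injective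
  rw [c1]
  unfold rB
  have c3 := hps.card
  generalize Nat.card B.L = ρ at *
  calc _ ≤ ρ * ((1 + ρ ^ 2) * k) * (2 * k * k) :=
        Nat.mul_le_mul (Nat.mul_le_mul c2 c3) (Nat.mul_le_mul_left _ hcY)
    _ ≤ (ρ + k + 2) * ((ρ + k + 2) ^ 2 * (ρ + k + 2)) * ((ρ + k + 2) * (ρ + k + 2) * (ρ + k + 2)) := by
        refine Nat.mul_le_mul (Nat.mul_le_mul (by omega) (Nat.mul_le_mul ?_ (by omega)))
          (Nat.mul_le_mul (Nat.mul_le_mul (by omega) (by omega)) (by omega))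
        nlinarith
    _ = (ρ + k + 2) ^ 7 := by ring
    _ ≤ (ρ + k + 2) ^ 8 := Nat.pow_le_pow_right (by omega) (by norm_num)

/-- The family part of the inner block. -/
theorem famB (hL : LzaS) (H : HypC B a b eps D z k) {g : S → Q} {inj : Function.Injective g} {Y : S → Prop} {Pos : Type}
    [Fintype Pos] {ps : Pos → List (ℕ × B.L)} (hP : PosOk H ps) [Fintype (RI B eps k Pos Y)]
    {X : ClsW H.up g inj (2 * k) (RI B eps k Pos Y)} {h h' : ℕ} (hh : h ≤ h')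
    (h1 : ClsB H X Y (fun A => ∀ r, A (X.x r) ↔ A (X.y r)) (wdI H g ps) h)
    (h2 : ∀ r, X.x r = r.2.2) (h3 : ∀ r, Sh D (g (X.x r)) (g (X.y r)))
    (h4 : ∀ r : RI B eps k Pos Y, ∀ n : ℕ,
      (n : ZMod (2 * k)) = ((r.2.1.val + eeC eps (g r.2.2) : ℕ) : ZMod (2 * k)) →
      rfC eps (B.q a) (g (X.y r)) = rfC eps (B.q a) (g (X.x r)) *
        ((mL (B.q a) (B.q b) (ps r.1.2) * uC (B.q a) (B.q b) n) * B.q r.1.1 *
          (mL (B.q a) (B.q b) (ps r.1.2) * uC (B.q a) (B.q b) n)⁻¹))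
    (h6 : ∀ c v, Y v → {r | v = X.x ⟨c, r⟩ ∨ v = X.y ⟨c, r⟩}.ncard = 4 * k) :
    FamB H g inj X Y (wdI H g ps) (fun _ => True) h' := by
  classical
  have hk := H.kpos
  have : NeZero (2 * k) := ⟨by omega⟩
  have hfin : Finite B.L := H.finL
  -- the level of a rung with reference level `n`
  have lev : ∀ (v : S) (n : ℕ), (n : ZMod (2 * k)) =
      (((((n : ZMod (2 * k)) - (eeC eps (g v) : ZMod (2 * k))).val + eeC eps (g v) : ℕ)) : ZMod (2 * k)) := by
    intro v n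
    rw [Nat.cast_add, ZMod.natCast_zmod_val, sub_add_cancel]
  have levm : ∀ (v : S) (n : ℕ), n < 2 * k →
      (((n : ZMod (2 * k)) - (eeC eps (g v) : ZMod (2 * k))).val + eeC eps (g v)) % (2 * k) = n := by
    intro v n hn
    have e1 := (ZMod.natCast_eq_natCast_iff' _ _ _).1 (lev v n)
    rw [← e1, Nat.mod_eq_of_lt hn]
  refine
    { xY := h1.xY
      yY := h1.yY
      fin := h1.fin
      clo := h1.clo
      tin := fun _ => Iff.rfl
      inner := fun r _ => ⟨h3 r, _, ⟨mL (B.q a) (B.q b) (ps r.1.2), mL_mZ H (hP.ok _), _, r.1.1, r.1.1.2, rfl⟩,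
        h4 r _ rfl⟩
      inn := ?_
      inn0 := ?_
      innL := ?_
      wt := ?_
      hle := fun r => (h1.hle r).trans hh
      vol := ?_ }
  · rintro v hv q ⟨m, hm, n, t, ht, rfl⟩
    obtain ⟨c, rfl⟩ := exists_pos hP hm
    refine ⟨⟨(⟨t, ht⟩, c), ((n : ZMod (2 * k)) - (eeC eps (g v) : ZMod (2 * k)), ⟨v, hv⟩)⟩, trivial, h2 _, ?_⟩
    have e1 := h4 ⟨(⟨t, ht⟩, c), ((n : ZMod (2 * k)) - (eeC eps (g v) : ZMod (2 * k)), ⟨v, hv⟩)⟩ n (lev v n)
    rw [e1, h2]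
  · intro v hv t ht n hn
    obtain ⟨c, hc⟩ := hP.emp
    refine ⟨⟨(⟨t, ht⟩, c), ((n : ZMod (2 * k)) - (eeC eps (g v) : ZMod (2 * k)), ⟨v, hv⟩)⟩, trivial, h2 _, ?_⟩
    unfold wdI
    simp only [levm v n hn, hc]
    show PW H.up n t n = _
    unfold PW IW
    show _ = [] ++ H.up.str n 1 ++ t :: (B.rev (H.up.str n 1) ++ B.rev ([] : List B.L))
    rw [rev_nil, List.append_nil, List.nil_append]
  · intro v hv t ht p hp
    obtain ⟨c, hc⟩ := hP.one p hp
    refine ⟨⟨(⟨t, ht⟩, c), (((0 : ℕ) : ZMod (2 * k)) - (eeC eps (g v) : ZMod (2 * k)), ⟨v, hv⟩)⟩, trivial, h2 _, ?_⟩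
    unfold wdI
    simp only [levm v 0 (by omega), hc]
    unfold PW IW
    show flat (p :: List.replicate (k - 1) (a, b)) ++ (([] ++ t :: B.rev []) ++ _) =
      flat (p :: List.replicate (k - 1) (a, b)) ++ [] ++ t :: (B.rev [] ++ _)
    rw [rev_nil]
    simp
  · obtain ⟨t₀, ht₀⟩ := H.rot
    obtain ⟨c₀, -⟩ := hP.emp
    refine ⟨4 * k, fun r => if r.1 = (⟨t₀, ht₀⟩, c₀) then 1 else 0, by omega, le_rfl, fun _ _ => trivial, ?_⟩
    intro v hv
    have e1 : (∑ r, if v = X.x r ∨ v = X.y r then (if r.1 = (⟨t₀, ht₀⟩, c₀) then 1 else 0) else 0) =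
        {r : RI B eps k Pos Y | (v = X.x r ∨ v = X.y r) ∧ r.1 = (⟨t₀, ht₀⟩, c₀)}.ncard := by
      rw [Set.ncard_eq_toFinset_card', Finset.card_eq_sum_ones]
      rw [← Finset.sum_filter, ← Finset.sum_filter, Finset.filter_filter]
      refine Finset.sum_congr ?_ (fun _ _ => rfl)
      ext r
      simp
    rw [e1, ← h6 (⟨t₀, ht₀⟩, c₀) v hv]
    have e2 : {r : RI B eps k Pos Y | (v = X.x r ∨ v = X.y r) ∧ r.1 = (⟨t₀, ht₀⟩, c₀)} =
        (fun r' => (⟨(⟨t₀, ht₀⟩, c₀), r'⟩ : RI B eps k Pos Y)) ''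
          {r | v = X.x ⟨(⟨t₀, ht₀⟩, c₀), r⟩ ∨ v = X.y ⟨(⟨t₀, ht₀⟩, c₀), r⟩} := by
      ext r
      constructor
      · rintro ⟨e3, e4⟩
        obtain ⟨c, r'⟩ := r
        simp only at e4
        subst e4
        exact ⟨r', e3, rfl⟩
      · rintro ⟨r', e3, rfl⟩
        exact ⟨e3, rfl⟩
    rw [e2]
    exact Set.ncard_image_of_injective _ (fun x y hxy => by simpa using hxy)
  · intro F _ V u u' o hz hup hg
    have hlz := hL Q B a b eps D z k H F V u u' o hz hup hg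
    have hinv : (evA V eps u u').Inv (z ^ k) := evA_inv V eps u u' (by rw [map_pow, hz, one_pow]) (by
      have : eps z = 1 := by
        have h7 : eps (z⁻¹ * (B.q a * (B.q b)⁻¹)) = 1 := H.leD H.mem
        rw [map_mul, map_mul, map_inv, map_inv, H.ea, H.eb] at h7
        have h8 : (-1 : ℤˣ) * (-1)⁻¹ = 1 := by decide
        rw [h8, mul_one] at h7
        exact inv_eq_one.1 h7
      rw [map_pow, this, one_pow])
    refine ⟨h1.vol F (evA V eps u u') o hinv hlz, fun A hA r hr s hs => ?_⟩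
    exact h1.th A hA F (evA V eps u u') o hinv hlz r hr s hs

/-- The positions as pairs (copy, shift). -/
theorem exists_copy {H : HypC B a b eps D z k} {Pos : Type} [Fintype Pos] {ps : Pos → List (ℕ × B.L)}
    (hP : PosOk H ps) : ∃ (q₀ : ℕ) (_ : Nonempty (Fin q₀)) (j : Pos → Fin q₀),
      ∀ (i : Fin q₀) (m : Q), m ∈ mZ B a b D z k → ∃! c, j c = i ∧ mL (B.q a) (B.q b) (ps c) = m := by
  classical
  obtain ⟨q₀, h0, h1⟩ := hP.cnt
  have he : ∀ m : {m // m ∈ mZ B a b D z k}, Nonempty ({c // mL (B.q a) (B.q b) (ps c) = (m : Q)} ≃ Fin q₀) := by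
    intro m
    refine ⟨Finite.equivFinOfCardEq ?_⟩
    have := h1 m m.2
    rwa [← Nat.card_coe_set_eq] at this
  let E : ∀ m : {m // m ∈ mZ B a b D z k}, {c // mL (B.q a) (B.q b) (ps c) = (m : Q)} ≃ Fin q₀ := fun m => (he m).some
  let sh : Pos → {m // m ∈ mZ B a b D z k} := fun c => ⟨mL (B.q a) (B.q b) (ps c), mL_mZ H (hP.ok c)⟩
  have key : ∀ (m : {m // m ∈ mZ B a b D z k}) (c : Pos) (h : mL (B.q a) (B.q b) (ps c) = (m : Q)),
      E (sh c) ⟨c, rfl⟩ = E m ⟨c, h⟩ := by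
    intro m c h
    have e1 : sh c = m := Subtype.ext h
    subst e1
    rfl
  refine ⟨q₀, ⟨⟨0, h0⟩⟩, fun c => E (sh c) ⟨c, rfl⟩, fun i m hm => ?_⟩
  refine ⟨(E ⟨m, hm⟩).symm i, ⟨?_, ((E ⟨m, hm⟩).symm i).2⟩, ?_⟩
  · show E (sh _) _ = i
    rw [key ⟨m, hm⟩ _ ((E ⟨m, hm⟩).symm i).2]
    exact (E ⟨m, hm⟩).apply_symm_apply i
  · rintro c ⟨h2, h3⟩
    have h4 : E ⟨m, hm⟩ ⟨c, h3⟩ = i := by rw [← key ⟨m, hm⟩ c h3]; exact h2
    rw [← h4, Equiv.symm_apply_apply]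

/-- Labels and positions of the inner block. -/
theorem famZ_of (H : HypC B a b eps D z k) {g : S → Q} {inj : Function.Injective g} {Y : S → Prop} {Pos : Type}
    [Fintype Pos] {ps : Pos → List (ℕ × B.L)} (hP : PosOk H ps)
    {X : ClsW H.up g inj (2 * k) (RI B eps k Pos Y)}
    (h2 : ∀ r, X.x r = r.2.2)
    (h4 : ∀ r : RI B eps k Pos Y, ∀ n : ℕ,
      (n : ZMod (2 * k)) = ((r.2.1.val + eeC eps (g r.2.2) : ℕ) : ZMod (2 * k)) →
      rfC eps (B.q a) (g (X.y r)) = rfC eps (B.q a) (g (X.x r)) *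
        ((mL (B.q a) (B.q b) (ps r.1.2) * uC (B.q a) (B.q b) n) * B.q r.1.1 *
          (mL (B.q a) (B.q b) (ps r.1.2) * uC (B.q a) (B.q b) n)⁻¹))
    (h5 : ∀ r, (X.tau r).1 = r.1) :
    ∃ (J : Type) (_ : Fintype J) (_ : Nonempty J) (lb : RI B eps k Pos Y → B.L)
      (po : RI B eps k Pos Y → J × mZ B a b D z k × ZMod (2 * k)), FamZ H g inj X Y lb po := by
  obtain ⟨q₀, hq, j, hj⟩ := exists_copy hP
  refine ⟨Fin q₀, inferInstance, hq, fun r => r.1.1,
    fun r => (j r.1.2, ⟨mL (B.q a) (B.q b) (ps r.1.2), mL_mZ H (hP.ok _)⟩, r.2.1), ?_⟩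
  refine ⟨fun r => r.1.1.2, ?_, fun r => ?_, fun r => by rw [h5]⟩
  · rintro t ht ⟨i, m, n⟩ v hv
    obtain ⟨c, ⟨hc1, hc2⟩, hc3⟩ := hj i m m.2
    refine ⟨⟨(⟨t, ht⟩, c), (n, ⟨v, hv⟩)⟩, ⟨rfl, ?_, h2 _⟩, ?_⟩
    · exact Prod.ext hc1 (Prod.ext (Subtype.ext hc2) rfl)
    · rintro ⟨⟨⟨t', ht'⟩, c'⟩, n', v', hv'⟩ ⟨e1, e2, e3⟩
      simp only at e1
      subst e1
      rw [h2] at e3
      simp only at e3
      subst e3
      have e4 : j c' = i := congrArg Prod.fst e2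
      have e5 : mL (B.q a) (B.q b) (ps c') = (m : Q) :=
        congrArg (fun p : Fin q₀ × mZ B a b D z k × ZMod (2 * k) => (p.2.1 : Q)) e2
      have e6 : n' = n := congrArg (fun p : Fin q₀ × mZ B a b D z k × ZMod (2 * k) => p.2.2) e2
      have e7 := hc3 c' ⟨e4, e5⟩
      rw [e7, e6]
  · unfold valZ
    exact h4 r _ (by rw [h2])

end

end InF

open InF in
/-- The inner family. -/
theorem famZ (hI : InbS) (hP : PosS) (hL : LzaS) : FamZS := by
  classical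
  intro S _ _ Q _ _ B a b eps D z k H g inj W hg hD hW v₀
  have hk := H.kpos
  have : NeZero (2 * k) := ⟨by omega⟩
  have hfL : Finite B.L := H.finL
  have hfin : Finite Q := H.fin
  have hD' : Finite D := inferInstance
  obtain ⟨Pos, iP, ps, hps⟩ := hP Q B a b eps D z k H
  have hY : ShCl D g (fun v => Sh D (g v₀) (g v)) := fun s s' h h' => h.trans h'
  obtain ⟨X, h1, h2, h3, h4, h5, h6⟩ := hI S Q B a b eps D z k H g inj hg _ hY Pos ps hps.ok _ hps.len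
  have : Fintype {t : B.L // eps (B.q t) = 1} := Fintype.ofFinite _
  obtain ⟨J, iJ, nJ, lb, po, hz⟩ := famZ_of H hps h2 h4 h5
  refine ⟨RI B eps k Pos fun v => Sh D (g v₀) (g v), inferInstance, X, wdI H g ps, J, iJ, nJ, lb, po, ?_,
    famB hL H hps ?_ h1 h2 h3 h4 h6, hz⟩
  · exact card_RI H hps inj _
  · exact hB_ge _ _

end Pool.Agent.Lib.MP_688fd0_co.SQ4.CV
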